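import Pool.Agent.helper73.TF.Spec

set_option autoImplicit false

namespace Pool.Agent.TF

open Set Topology

theorem FOR_isolated {X : Type} [TopologicalSpace X] [CompactSpace X] [T2Space X] [Countable X]
    (M : Set X) (hc : IsClosed M) (hn : M.Nonempty) : ∃ p ∈ M, ∃ V : Set X, IsOpen V ∧ V ∩ M = {p} := by
  have : CompactSpace M := isCompact_iff_compactSpace.mp hc.isCompact
  have : Nonempty M := hn.to_subtype
  obtain ⟨p, hp⟩ := nonempty_interior_of_iUnion_of_closed (X := M) (ι := M) (f := fun x => {x})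
    (fun x => isClosed_singleton) (by ext x; simp)
  have h1 : interior ({p} : Set M) = {p} := by
    apply subset_antisymm interior_subset
    obtain ⟨q, hq⟩ := hp
    have : q = p := Set.mem_singleton_iff.mp (interior_subset hq)
    rw [this] at hq
    intro y hy
    rw [hy]
    exact hq
  have h2 : IsOpen ({p} : Set M) := by
    rw [← h1]
    exact isOpen_interior
  obtain ⟨V, hV, hVp⟩ := isOpen_induced_iff.mp h2
  refine ⟨p, p.2, V, hV, ?_⟩
  ext x
  constructor
  · rintro ⟨hxV, hxM⟩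
    have : (⟨x, hxM⟩ : M) ∈ (Subtype.val ⁻¹' V : Set M) := hxV
    rw [hVp] at this
    have h3 : (⟨x, hxM⟩ : M) = p := this
    exact congrArg Subtype.val h3
  · intro hx
    have hx' : x = (p : X) := hx
    rw [hx']
    have : p ∈ (Subtype.val ⁻¹' V : Set M) := by
      rw [hVp]
      rfl
    exact ⟨this, p.2⟩

theorem FOR : FOR_stmt := by
  intro G X _ _ _ _ _ _ T hT h1 hm
  let S : Set (Set X) := {M | IsClosed M ∧ M.Nonempty ∧ ∀ g, ∀ x ∈ M, T g x ∈ M}
  have huniv : (Set.univ : Set X) ∈ S := ⟨isClosed_univ, Set.univ_nonempty, fun _ _ _ => Set.mem_univ _⟩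
  obtain ⟨M, hMu, hM⟩ := zorn_superset_nonempty S (by
    intro c hcS hc hne
    refine ⟨⋂₀ c, ⟨?_, ?_, ?_⟩, fun s hs => Set.sInter_subset_of_mem hs⟩
    · exact isClosed_sInter fun s hs => (hcS hs).1
    · have : Nonempty c := hne.to_subtype
      rw [Set.sInter_eq_iInter]
      apply IsCompact.nonempty_iInter_of_directed_nonempty_isCompact_isClosed
      · intro a b
        rcases hc.total a.2 b.2 with h | h
        · exact ⟨a, subset_rfl, h⟩
        · exact ⟨b, h, subset_rfl⟩
      · intro a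
        exact (hcS a.2).2.1
      · intro a
        exact (hcS a.2).1.isCompact
      · intro a
        exact (hcS a.2).1
    · intro g x hx s hs
      exact (hcS hs).2.2 g x (hx s hs)) Set.univ huniv
  obtain ⟨⟨hMc, hMn, hMi⟩, hMmin⟩ := hM
  obtain ⟨p, hpM, V, hV, hVM⟩ := FOR_isolated M hMc hMn
  have hcov : M ⊆ ⋃ g : G, {x | T g x ∈ V} := by
    by_contra hcon
    obtain ⟨x, hxM, hxW⟩ := Set.not_subset.mp hcon
    let M' : Set X := M ∩ (⋃ g : G, {x | T g x ∈ V})ᶜ
    have hM' : M' ∈ S := by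
      refine ⟨hMc.inter (isOpen_iUnion fun g => hV.preimage (hT g)).isClosed_compl, ⟨x, hxM, hxW⟩, ?_⟩
      rintro g y ⟨hyM, hyW⟩
      refine ⟨hMi g y hyM, ?_⟩
      intro hcon2
      apply hyW
      obtain ⟨h, hh⟩ := Set.mem_iUnion.mp hcon2
      refine Set.mem_iUnion.mpr ⟨h * g, ?_⟩
      show T (h * g) y ∈ V
      rw [hm]
      exact hh
    have hle : M ⊆ M' := hMmin hM' Set.inter_subset_left
    have hp := (hle hpM).2
    apply hp
    refine Set.mem_iUnion.mpr ⟨1, ?_⟩
    show T 1 p ∈ V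
    rw [h1]
    have : p ∈ V ∩ M := by
      rw [hVM]
      rfl
    exact this.1
  obtain ⟨F, hF⟩ := hMc.isCompact.elim_finite_subcover (fun g : G => {x | T g x ∈ V}) (fun g => hV.preimage (hT g)) hcov
  have hfin : M.Finite := by
    apply (F.finite_toSet.image fun g => T g⁻¹ p).subset
    intro x hx
    obtain ⟨g, hg, hgx⟩ : ∃ g ∈ F, T g x ∈ V := by
      have := hF hx
      simpa using this
    refine ⟨g, hg, ?_⟩
    have h3 : T g x ∈ V ∩ M := ⟨hgx, hMi g x hx⟩
    rw [hVM] at h3
    have h4 : T g x = p := h3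
    show T g⁻¹ p = x
    rw [← h4, ← hm, inv_mul_cancel, h1]
  exact ⟨p, hfin.subset (by rintro _ ⟨g, rfl⟩; exact hMi g p hpM)⟩

end Pool.Agent.TF
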