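import Pool.Agent.helper73.TF.Spec

set_option autoImplicit false

namespace Pool.Agent.TF

open Matrix

theorem MNK_pow_mem {n : ℕ} {L : Submodule ℤ (Fin n → ℤ)} {p : Matrix (Fin n) (Fin n) ℤ}
    (h : ∀ x ∈ L, p *ᵥ x ∈ L) (k : ℕ) : ∀ x ∈ L, (p ^ k) *ᵥ x ∈ L := by
  induction k with
  | zero => intro x hx; simpa using hx
  | succ k ih =>
    intro x hx
    rw [pow_succ, ← mulVec_mulVec]
    exact ih _ (h x hx)

theorem MNK_pow_mod {n : ℕ} {L : Submodule ℤ (Fin n → ℤ)} {p : Matrix (Fin n) (Fin n) ℤ}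
    (h : ∀ x ∈ L, p *ᵥ x ∈ L) (h3 : ∀ x ∈ L, ∃ y : Fin n → ℤ, p *ᵥ x - x = (3 : ℤ) • y) (k : ℕ) :
    ∀ x ∈ L, ∃ y : Fin n → ℤ, (p ^ k) *ᵥ x - x = (3 : ℤ) • y := by
  induction k with
  | zero => intro x hx; exact ⟨0, by simp⟩
  | succ k ih =>
    intro x hx
    obtain ⟨y, hy⟩ := ih _ (h x hx)
    obtain ⟨z, hz⟩ := h3 x hx
    refine ⟨y + z, ?_⟩
    rw [pow_succ, ← mulVec_mulVec, smul_add, ← hy, ← hz]
    abel

theorem MNK_exp {n : ℕ} {L : Submodule ℤ (Fin n → ℤ)} (T : Matrix (Fin n) (Fin n) ℤ)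
    (hT : ∀ x ∈ L, T *ᵥ x ∈ L) (l : ℕ) :
    ∃ S : Matrix (Fin n) (Fin n) ℤ, (∀ x ∈ L, S *ᵥ x ∈ L) ∧ (1 + T) ^ l = 1 + (l : ℤ) • T + T * (T * S) := by
  induction l with
  | zero => exact ⟨0, fun x _ => by simp, by simp⟩
  | succ l ih =>
    obtain ⟨S, hS, he⟩ := ih
    refine ⟨(l : ℤ) • 1 + S + S * T, ?_, ?_⟩
    · intro x hx
      rw [add_mulVec, add_mulVec, smul_mulVec, one_mulVec, ← mulVec_mulVec]
      exact L.add_mem (L.add_mem (L.smul_mem _ hx) (hS x hx)) (hS _ (hT x hx))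
    · rw [pow_succ, he]
      push_cast
      simp only [add_mul, mul_add, one_mul, mul_one, add_smul, one_smul, smul_mul_assoc, mul_smul_comm, mul_assoc]
      abel

theorem MNK_prime {n : ℕ} (p : Matrix (Fin n) (Fin n) ℤ) (L : Submodule ℤ (Fin n → ℤ))
    (hsat : ∀ x : Fin n → ℤ, (3 : ℤ) • x ∈ L → x ∈ L) (h : ∀ x ∈ L, p *ᵥ x ∈ L)
    (h3 : ∀ x ∈ L, ∃ y : Fin n → ℤ, p *ᵥ x - x = (3 : ℤ) • y) (l : ℕ) (hl : l.Prime)
    (hp : ∀ x ∈ L, (p ^ l) *ᵥ x = x) : ∀ x ∈ L, p *ᵥ x = x := by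
  set T : Matrix (Fin n) (Fin n) ℤ := p - 1 with hTd
  have hTx : ∀ x : Fin n → ℤ, T *ᵥ x = p *ᵥ x - x := by
    intro x
    rw [hTd, sub_mulVec, one_mulVec]
  have hTL : ∀ x ∈ L, T *ᵥ x ∈ L := fun x hx => by
    rw [hTx]
    exact L.sub_mem (h x hx) hx
  have hp1 : p = 1 + T := by rw [hTd]; abel
  have key : ∀ a : ℕ, ∀ x ∈ L, ∃ y ∈ L, T *ᵥ x = ((3 : ℤ) ^ (a + 1)) • y := by
    intro a
    induction a with
    | zero =>
      intro x hx
      obtain ⟨y, hy⟩ := h3 x hx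
      refine ⟨y, hsat y (by rw [← hy, ← hTx]; exact hTL x hx), ?_⟩
      rw [hTx, hy]
      simp
    | succ a ih =>
      intro x hx
      obtain ⟨y0, hy0, e0⟩ := ih x hx
      suffices hs : ∃ z ∈ L, y0 = (3 : ℤ) • z by
        obtain ⟨z, hz, hz2⟩ := hs
        refine ⟨z, hz, ?_⟩
        rw [e0, hz2, smul_smul, ← pow_succ]
      have hne : ((3 : ℤ) ^ (a + 1)) ≠ 0 := by positivity
      by_cases hl3 : l = 3
      · have e3 : p ^ l = 1 + (3 : ℤ) • T + (3 : ℤ) • (T * T) + T * (T * T) := by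
          rw [hl3, hp1]
          simp only [pow_succ, pow_zero, add_mul, mul_add, one_mul, mul_one, mul_assoc]
          have : ∀ M : Matrix (Fin n) (Fin n) ℤ, (3 : ℤ) • M = M + M + M := by
            intro M
            rw [show (3 : ℤ) = 1 + 1 + 1 by norm_num, add_smul, add_smul, one_smul]
          rw [this, this]
          abel
        have e4 := hp x hx
        rw [e3] at e4
        simp only [add_mulVec, one_mulVec, smul_mulVec, ← mulVec_mulVec] at e4
        obtain ⟨y1, hy1, e1⟩ := ih y0 hy0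
        obtain ⟨y2, hy2, e2⟩ := ih y1 hy1
        rw [e0, mulVec_smul, e1, mulVec_smul, mulVec_smul, e2] at e4
        have e5 : ((3 : ℤ) ^ (a + 1)) • ((3 : ℤ) • y0 + (3 : ℤ) • ((3 : ℤ) ^ (a + 1) • y1)
            + (3 : ℤ) ^ (a + 1) • (3 : ℤ) ^ (a + 1) • y2) = 0 := by
          have e6 : x + ((3 : ℤ) ^ (a + 1)) • ((3 : ℤ) • y0 + (3 : ℤ) • ((3 : ℤ) ^ (a + 1) • y1)
            + (3 : ℤ) ^ (a + 1) • (3 : ℤ) ^ (a + 1) • y2) = x := by
            rw [← e4]
            funext i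
            simp only [Pi.add_apply, Pi.smul_apply, smul_eq_mul]
            have := congrFun e4 i
            simp only [Pi.add_apply, Pi.smul_apply, smul_eq_mul] at this
            linarith
          exact add_eq_left.mp e6
        have e6 := (smul_eq_zero.mp e5).resolve_left hne
        refine ⟨-(((3 : ℤ) ^ a) • y1 + ((3 : ℤ) ^ (2 * a)) • y2), L.neg_mem (L.add_mem (L.smul_mem _ hy1) (L.smul_mem _ hy2)), ?_⟩
        have e7 : (3 : ℤ) • (y0 - (3 : ℤ) • -(((3 : ℤ) ^ a) • y1 + ((3 : ℤ) ^ (2 * a)) • y2)) = 0 := by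
          rw [← e6]
          funext i
          simp only [Pi.add_apply, Pi.smul_apply, smul_eq_mul, Pi.sub_apply, Pi.neg_apply]
          ring
        exact sub_eq_zero.mp ((smul_eq_zero.mp e7).resolve_left (by norm_num))
      · obtain ⟨S, hS, he⟩ := MNK_exp (L := L) T hTL l
        have e4 := hp x hx
        rw [hp1, he] at e4
        simp only [add_mulVec, one_mulVec, smul_mulVec, ← mulVec_mulVec] at e4
        obtain ⟨y1, hy1, e1⟩ := ih _ (hS x hx)
        obtain ⟨y2, hy2, e2⟩ := ih y1 hy1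
        rw [e0, e1, mulVec_smul, e2] at e4
        have e5 : ((3 : ℤ) ^ (a + 1)) • ((l : ℤ) • y0 + (3 : ℤ) ^ (a + 1) • y2) = 0 := by
          funext i
          have := congrFun e4 i
          simp only [Pi.add_apply, Pi.smul_apply, smul_eq_mul, Pi.zero_apply] at this ⊢
          linarith
        have e6 := (smul_eq_zero.mp e5).resolve_left hne
        have hcop : IsCoprime (l : ℤ) 3 := by
          have : Nat.Coprime l 3 := (Nat.coprime_primes hl Nat.prime_three).mpr hl3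
          exact_mod_cast Nat.isCoprime_iff_coprime.mpr this
        obtain ⟨u, w, huw⟩ := hcop
        refine ⟨w • y0 - (u * (3 : ℤ) ^ a) • y2, L.sub_mem (L.smul_mem _ hy0) (L.smul_mem _ hy2), ?_⟩
        funext i
        have e7 := congrFun e6 i
        simp only [Pi.add_apply, Pi.smul_apply, smul_eq_mul, Pi.zero_apply, Pi.sub_apply] at e7 ⊢
        have e8 : y0 i = (u * l + w * 3) * y0 i := by rw [huw]; ring
        have e9 : (l : ℤ) * y0 i = -((3 : ℤ) ^ (a + 1) * y2 i) := by linarith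
        calc y0 i = u * ((l : ℤ) * y0 i) + w * 3 * y0 i := by rw [← mul_assoc, ← add_mul]; exact e8
          _ = 3 * (w * y0 i - u * 3 ^ a * y2 i) := by rw [e9]; ring
  intro x hx
  have h0 : T *ᵥ x = 0 := by
    funext i
    obtain ⟨m, hm⟩ := pow_unbounded_of_one_lt (|(T *ᵥ x) i|) (show (1 : ℤ) < 3 by norm_num)
    obtain ⟨y, _, hy⟩ := key m x hx
    have hd : ((3 : ℤ) ^ m) ∣ (T *ᵥ x) i := by
      rw [hy, Pi.smul_apply, smul_eq_mul, pow_succ]
      exact ⟨3 * y i, by ring⟩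
    exact Int.eq_zero_of_abs_lt_dvd hd hm
  rw [hTx] at h0
  exact sub_eq_zero.mp h0

theorem MNK : MNK_stmt := by
  intro n p L hsat h h3 k hk
  induction k using Nat.strong_induction_on with
  | _ k ih =>
    intro hp
    by_cases h1 : k = 1
    · subst h1
      simpa using hp
    · have hl := Nat.minFac_prime h1
      obtain ⟨k', hk'⟩ := Nat.minFac_dvd k
      have hk'1 : 1 ≤ k' := by
        rcases Nat.eq_zero_or_pos k' with h0 | h0
        · rw [h0] at hk'
          omega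
        · exact h0
      have hlt : k' < k := by
        have := hl.two_le
        nlinarith
      apply ih k' hlt hk'1
      apply MNK_prime (p ^ k') L hsat (MNK_pow_mem h k') (MNK_pow_mod h h3 k') _ hl
      intro x hx
      rw [← pow_mul, mul_comm, ← hk']
      exact hp x hx

end Pool.Agent.TF
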